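import Pool.Agent.UL4.Stmts

/-!
Squad UL4 (MP_c7c9bf_co), row OVC: a window of length `13/20` at the level `sqrt (40/39)` bounds the fourth
moment.
-/

set_option autoImplicit false

namespace Pool.Agent.UL4.H45

open MeasureTheory Set Pool.Agent.UL3 Pool.Agent.UL4

theorem le_of_sq {x y a : ℝ} (hy : 0 ≤ y) (h2 : y ^ 2 = a) (hxa : x ^ 2 ≤ a) : x ≤ y := by
  by_contra h
  push Not at h
  nlinarith

/-- ROW OVC -/
theorem ovc (h1 : MasStmt) (h2 : TbdStmt) (h3 : WinStmt) : OvcStmt := by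
  intro F hc hk h0 hI l₁ l₂ hl1 hl1' hw1 hl2 hl2' hw2
  have hρ0 : 0 ≤ Real.sqrt (4 / 3) := Real.sqrt_nonneg _
  have hβ0 : 0 ≤ Real.sqrt (40 / 39) := Real.sqrt_nonneg _
  have hρ2 : Real.sqrt (4 / 3) ^ 2 = 4 / 3 := Real.sq_sqrt (by norm_num)
  have hβ2 : Real.sqrt (40 / 39) ^ 2 = 40 / 39 := Real.sq_sqrt (by norm_num)
  have hβρ : Real.sqrt (40 / 39) ≤ Real.sqrt (4 / 3) := Real.sqrt_le_sqrt (by norm_num)
  generalize Real.sqrt (4 / 3) = ρ at *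
  generalize Real.sqrt (40 / 39) = β at *
  have hρlow : (11547 : ℝ) / 10000 ≤ ρ := le_of_sq hρ0 hρ2 (by norm_num)
  have hρup : ρ ≤ 12183 / 10000 := by
    by_contra h
    push Not at h
    nlinarith
  have hp : (11694 : ℝ) / 10000 ≤ ρ * β := by
    refine le_of_sq (mul_nonneg hρ0 hβ0) (a := 4 / 3 * (40 / 39)) ?_ (by norm_num)
    rw [mul_pow, hρ2, hβ2]
  have hF : ∀ t ∈ Icc (0 : ℝ) 1, F t ≤ 12183 / 10000 := by
    intro t ht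
    by_contra hlt
    push Not at hlt
    obtain ⟨l', l'', a1, a2, a3, a4, a5, a6, a7, a8, a9, a10⟩ :=
      h3 F (13 / 20) β ρ l₁ l₂ t hk (by norm_num) hβρ hl1 hl1' hw1 hl2 hl2' hw2 ht
        (hρup.trans hlt.le)
    have hm := h1 F l'' l' t (13 / 20) β ρ (12183 / 10000) hc hk h0 a1 a2 a3 a4 a5 a6 hβ0 hρ0
      (by norm_num) a7 a8 hlt.le a9 a10
    rw [hI, hρ2, hβ2] at hm
    linarith
  obtain ⟨l', l'', a1, a2, a3, a4, a5, a6, a7, a8, a9, a10⟩ :=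
    h3 F (13 / 20) β ρ l₁ l₂ l₁ hk (by norm_num) hβρ hl1 hl1' hw1 hl2 hl2' hw2
      ⟨hl1, by linarith⟩ (hw1 l₁ ⟨le_rfl, by linarith⟩)
  have hT := h2 F l'' l' (13 / 20) β ρ (12183 / 10000) hc hk (fun t ht => ⟨h0 t ht, hF t ht⟩) a1 a2
    a5 a6 hβ0 hβρ a7 a8 a9 a10
  have e1 : ρ ^ 4 = 16 / 9 := by
    calc ρ ^ 4 = (ρ ^ 2) ^ 2 := by ring
      _ = 16 / 9 := by rw [hρ2]; norm_num
  have e2 : ρ ^ 3 * β = 4 / 3 * (ρ * β) := by
    calc ρ ^ 3 * β = ρ ^ 2 * (ρ * β) := by ring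
      _ = 4 / 3 * (ρ * β) := by rw [hρ2]
  have e3 : ρ ^ 2 * β ^ 2 = 160 / 117 := by
    rw [hρ2, hβ2]
    norm_num
  have e4 : ρ * β ^ 3 = 40 / 39 * (ρ * β) := by
    calc ρ * β ^ 3 = β ^ 2 * (ρ * β) := by ring
      _ = 40 / 39 * (ρ * β) := by rw [hβ2]
  have e5 : β ^ 4 = 1600 / 1521 := by
    calc β ^ 4 = (β ^ 2) ^ 2 := by ring
      _ = 1600 / 1521 := by rw [hβ2]; norm_num
  rw [e1, e2, e3, e4, e5, hI, hρ2, hβ2] at hT
  refine hT.trans ?_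
  nlinarith

end Pool.Agent.UL4.H45
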